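import Pool.Agent.V5helper22.HeisTC
import Pool.Agent.V5helper22.HeisNontriv

/-!
# Smooth time-changes of Heisenberg nilflows that are not weakly mixing

Let `M = Γ \ G` be the Heisenberg nilmanifold and let `a` be a Liouville number. The nilflow
`φ_t (Γ g) = Γ g exp (t X)` with `X = (a, 1, 0)` is uniquely ergodic. We construct a smooth positive
function `α` on `M` that is not measurably cohomologous to a constant, for which the time-changed
flow (generated by `X / α`) has a nonconstant measurable eigenfunction. So this measurably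
non-trivial time-change of a uniquely ergodic parabolic nilflow is neither weakly mixing nor mixing.

The function. Choose integers `q_k, p_k` with `ε_k = q_k a - p_k > 0` extremely small, and put
`α = 1 + ∑ 10^k ε_k H_k' (q_k x - p_k y)`, where `H_k` is a smooth function with
`H_k (θ + 1) = H_k (θ) + 1` which is equal to an integer outside the `2^{-k-3}`-neighbourhoods (to
the right) of the integers. The eigenfunction is
`F = exp (2 π i (y + ∑ 10^k H_k (q_k x - p_k y)))`: almost surely all but finitely many
terms of the sum are integers. The function `α` is not measurably cohomologous to a constant since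
its ergodic integral up to the time `1 / (2 ε_k)` is, up to a constant and up to an error of
at most `(2/9) 10^k + 1`, equal to `0` on almost one half of the space and to `10^k` on almost the
other half.
-/

namespace Pool.Agent.Results.MP_442888_an.LiouvilleNotWM

open MeasureTheory Set Filter Topology
open Pool.Agent.V5helper22.HeisNil
open scoped ContDiff

/-- The candidate for the eigenfunction: the limit of the partial products. -/
noncomputable def limF (x : ℕ → ℤ × ℤ) (p : M) : ℂ := limUnder atTop (fun n => eig x n p)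

lemma measurable_limF (x : ℕ → ℤ × ℤ) : Measurable (limF x) := by
  have h : ∀ n, StronglyMeasurable (eig x n) := fun n => (continuous_eig x n).stronglyMeasurable
  exact (StronglyMeasurable.limUnder h).measurable

lemma not_mixing {a : ℝ} {x : ℕ → ℤ × ℤ} (h : IsSeq a x) :
    ¬ WeaklyMixing (tc (a, 1, 0) (alphaM a x)) (tcMeasure (alphaM a x)) ∧
      ¬ Mixing (tc (a, 1, 0) (alphaM a x)) (tcMeasure (alphaM a x)) := by
  have hα := h.continuous_alpha
  have hc : (0:ℝ) < 1 / 2 := by norm_num
  have hcα := h.alpha_ge
  have := isProbabilityMeasure_tcMeasure hα hc hcα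
  set C : Set M := {p | ∃ z, Tendsto (fun n => eig x n p) atTop (𝓝 z)} with hC
  have hCm : MeasurableSet C := by
    have := measurableSet_exists_tendsto (l := atTop) (f := fun n => eig x n)
      (fun n => (continuous_eig x n).measurable)
    exact this
  have hCν : ∀ᵐ p ∂(tcMeasure (alphaM a x)), p ∈ C := by
    have h1 : tcMeasure (alphaM a x) ≪ haarM :=
      (Measure.smul_absolutelyContinuous).trans (withDensity_absolutelyContinuous _ _)
    exact h1.ae_le h.ae_tendsto_eig
  have key : ∀ s, ∀ p ∈ C, Tendsto (fun n => eig x n (tc (a, 1, 0) (alphaM a x) s p)) atTop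
      (𝓝 (ee s * limF x p)) := by
    rintro s p ⟨z, hz⟩
    obtain ⟨t, rfl⟩ := tau_surjective (a, 1, 0) hα hc hcα p s
    have h1 : tc (a, 1, 0) (alphaM a x) (tau (a, 1, 0) (alphaM a x) p t) p =
      nilflow (a, 1, 0) t p := isTimeChange_tc (a, 1, 0) hα hc hcα p t
    rw [h1, limF, hz.limUnder_eq, mul_comm]
    exact h.tendsto_flow p t z hz
  refine not_mixing_of_eigenfunction (tc_zero (a, 1, 0) hα hc hcα)
    (fun s t p => tc_add (a, 1, 0) hα hc hcα s t p) (limF x) (measurable_limF x) C hCm hCν
    (fun s p hp => ⟨_, key s p hp⟩) (fun s p hp => (key s p hp).limUnder_eq) ?_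
  rintro p ⟨z, hz⟩ h0
  rw [limF, hz.limUnder_eq] at h0
  subst h0
  have h1 := hz.norm
  simp only [norm_eig, norm_zero] at h1
  exact one_ne_zero (tendsto_nhds_unique tendsto_const_nhds h1)

/-- **Main result.** For every Liouville number `a`, the Heisenberg nilflow generated by
`X = (a, 1, 0)` is uniquely ergodic (and `X` is not central), and it has a smooth, measurably
non-trivial time-change that is neither weakly mixing nor mixing. -/
theorem result :
    (∃ a : ℝ, Liouville a) ∧
    (IsProbabilityMeasure haarM ∧ ∀ h, haarM.map (rt h) = haarM) ∧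
    ∀ a : ℝ, Liouville a →
      (∃ g t, hmul g (expX (a, 1, 0) t) ≠ hmul (expX (a, 1, 0) t) g) ∧
      UniquelyErgodic (nilflow (a, 1, 0)) haarM ∧
      ∃ α : M → ℝ, ContDiff ℝ ∞ (fun v => α (pr v)) ∧ (∀ p, 0 < α p) ∧
        ¬ MeasurablyTrivial (nilflow (a, 1, 0)) α ∧
        ∃ ψ : ℝ → M → M, IsTimeChange (nilflow (a, 1, 0)) α ψ ∧
          (∀ ψ', IsTimeChange (nilflow (a, 1, 0)) α ψ' → ψ' = ψ) ∧
          (∀ p, ψ 0 p = p) ∧ (∀ s t p, ψ (s + t) p = ψ s (ψ t p)) ∧
          Continuous (fun q : ℝ × M => ψ q.1 q.2) ∧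
          IsProbabilityMeasure (tcMeasure α) ∧
          (∀ t, MeasurePreserving (ψ t) (tcMeasure α) (tcMeasure α)) ∧
          ¬ WeaklyMixing ψ (tcMeasure α) ∧ ¬ Mixing ψ (tcMeasure α) := by
  refine ⟨⟨_, liouville_liouvilleNumber le_rfl⟩, ⟨inferInstance, haarM_map_rt⟩, fun a ha => ?_⟩
  refine ⟨⟨(1, 0, 0), 1, ?_⟩, uniquelyErgodic_of_irrational ha.irrational, ?_⟩
  · intro h
    have := congrArg (fun v : V => v.2.2) h
    simp [hmul, expX] at this
  · obtain ⟨x, h0, hs⟩ := exists_seq ha
    have h : IsSeq a x := ⟨h0, hs⟩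
    have hα := h.continuous_alpha
    have hc : (0:ℝ) < 1 / 2 := by norm_num
    have hcα := h.alpha_ge
    refine ⟨alphaM a x, h.contDiff_alphaV, fun p => lt_of_lt_of_le hc (hcα p), h.not_trivial,
      tc (a, 1, 0) (alphaM a x), isTimeChange_tc (a, 1, 0) hα hc hcα,
      fun ψ' hψ' => hψ'.eq_tc (a, 1, 0) hα hc hcα, tc_zero (a, 1, 0) hα hc hcα,
      fun s t p => tc_add (a, 1, 0) hα hc hcα s t p, continuous_tc (a, 1, 0) hα hc hcα,
      isProbabilityMeasure_tcMeasure hα hc hcα,
      fun t => measurePreserving_tc (a, 1, 0) hα hc hcα t, not_mixing h⟩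

end Pool.Agent.Results.MP_442888_an.LiouvilleNotWM
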